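import Pool.Agent.Helper75.OE.GoalsA
import Pool.Agent.Helper73.OE.Iface

/-!
# Packet OE-EXA (MP_fc0446_an): exactness of one update, for sums
-/

namespace Pool.Agent.Helper99.OE

open Pool.Agent.Helper73.OE Pool.Agent.Helper73.OE.Sys Pool.Agent.Helper75.OE Finset
open scoped ENNReal

theorem MA_inside {H S L : Type} [Group H] (X : Sys H S L) (O : Edges H S) (Λ : Finset H)
    (hO : ∀ z r, O z r → z ∈ Λ ∧ X.nb z r ∈ Λ) (f : Cfg H S L) :
    X.MA O (Λ : Set H) f ↔ X.MA O Set.univ f := by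
  constructor
  · intro h z r _ _ ho
    exact h z r (hO z r ho).1 (hO z r ho).2 ho
  · intro h z r _ _ ho
    exact h z r trivial trivial ho

theorem addE_inside {H S L : Type} [Group H] (X : Sys H S L) (O : Edges H S) (Λ : Finset H)
    (hO : ∀ z r, O z r → z ∈ Λ ∧ X.nb z r ∈ Λ) (v : H) (s : S) (hv : v ∈ Λ)
    (hn : X.nb v s ∈ Λ) : ∀ z r, X.addE O (v, s) z r → z ∈ Λ ∧ X.nb z r ∈ Λ := by
  intro z r h
  rcases h with h | h | h
  · exact hO z r h
  · have h1 : z = v := congrArg Prod.fst h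
    have h2 : r = s := congrArg Prod.snd h
    subst h1; subst h2
    exact ⟨hv, hn⟩
  · have h1 : z = X.nb v s := congrArg Prod.fst h
    have h2 : r = X.bar s := congrArg Prod.snd h
    subst h1; subst h2
    exact ⟨hn, by rw [X.nb_bar]; exact hv⟩

theorem glue_out {H S L : Type} [Group H] (X : Sys H S L) (Λ : Finset H) (f : Λ → (S ≃ L))
    {z : H} (h : z ∉ Λ) : X.glue Λ f z = X.e0 := by
  unfold glue
  rw [dif_neg h]

theorem glue_in {H S L : Type} [Group H] (X : Sys H S L) (Λ : Finset H) (f : Λ → (S ≃ L))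
    (z : Λ) : X.glue Λ f z.1 = f z := by
  unfold glue
  rw [dif_pos z.2]

theorem glue_inj {H S L : Type} [Group H] (X : Sys H S L) (Λ : Finset H)
    {f g : Λ → (S ≃ L)} (h : X.glue Λ f = X.glue Λ g) : f = g := by
  funext z
  rw [← glue_in X Λ f z, ← glue_in X Λ g z, h]

theorem glue_of_out {H S L : Type} [Group H] (X : Sys H S L) (Λ : Finset H) (q : Cfg H S L)
    (h : ∀ z, z ∉ Λ → q z = X.e0) : X.glue Λ (fun z : Λ => q z.1) = q := by
  funext z
  by_cases hz : z ∈ Λ
  · exact glue_in X Λ (fun z : Λ => q z.1) ⟨z, hz⟩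
  · rw [glue_out X Λ _ hz, h z hz]

open Classical in
/-- The count of the preimages in the finite volume. -/
theorem count_fin (hC : A_CNT) (hI : A_UPI) {H S L : Type} [Group H] [Fintype S] [Fintype L]
    (X : Sys H S L) (P : Par) (O : Edges H S) (Λ : Finset H) (v : H) (s : S)
    (hS : X.Sym O) (hO : ∀ z r, O z r → z ∈ Λ ∧ X.nb z r ∈ Λ) (hvs : ¬ O v s) (hv : v ∈ Λ)
    (hn : X.nb v s ∈ Λ) (f' : Λ → (S ≃ L))
    (hM : X.MA (X.addE O (v, s)) Set.univ (X.glue Λ f')) :
    ((Finset.univ : Finset ((Λ → (S ≃ L)) × Fin P.cap)).filter (fun x =>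
      X.MA O Set.univ (X.glue Λ x.1) ∧
        X.Upd P O v s (x.2 : ℕ) (X.glue Λ x.1) = X.glue Λ f')).card
      = Fintype.card L * P.cap := by
  rw [← hC H S L X P O v s (X.glue Λ f') hS hvs hM]
  have himg : {x : Cfg H S L × Fin P.cap | X.MA O Set.univ x.1 ∧
      X.Upd P O v s (x.2 : ℕ) x.1 = X.glue Λ f'} =
      (fun x : (Λ → (S ≃ L)) × Fin P.cap => (X.glue Λ x.1, x.2)) ''
        (((Finset.univ : Finset ((Λ → (S ≃ L)) × Fin P.cap)).filter (fun x =>
      X.MA O Set.univ (X.glue Λ x.1) ∧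
        X.Upd P O v s (x.2 : ℕ) (X.glue Λ x.1) = X.glue Λ f') :
          Finset ((Λ → (S ≃ L)) × Fin P.cap)) : Set ((Λ → (S ≃ L)) × Fin P.cap)) := by
    ext ⟨q, u⟩
    simp only [Set.mem_ofPred_eq, Set.mem_image, Finset.coe_filter, Finset.mem_univ, true_and,
      Prod.exists, Prod.mk.injEq]
    constructor
    · rintro ⟨h1, h2⟩
      have hout : ∀ z, z ∉ Λ → q z = X.e0 := by
        intro z hz
        have h3 := hI H S L X P O (Λ : Set H) v s (u : ℕ) q hO hv hn z hz
        rw [← h3, h2, glue_out X Λ _ hz]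
      have hg := glue_of_out X Λ q hout
      refine ⟨fun z : Λ => q z.1, u, ⟨?_, ?_⟩, hg, rfl⟩
      · rw [hg]; exact h1
      · rw [hg]; exact h2
    · rintro ⟨f, w, ⟨h1, h2⟩, h3, h4⟩
      subst h3; subst h4
      exact ⟨h1, h2⟩
  rw [himg, Set.ncard_image_of_injective, Set.ncard_coe_finset]
  rintro ⟨f, u⟩ ⟨g, w⟩ h
  simp only [Prod.mk.injEq] at h
  rw [glue_inj X Λ h.1, h.2]

/-- Packet EXA. -/
theorem exa (hC : A_CNT) (hU : A_UPM) (hI : A_UPI) : A_EXA := by
  intro H S L _ _ _ X P O Λ v s F hS hO hvs hv hn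
  classical
  have hO' := addE_inside X O Λ hO v s hv hn
  rw [Finset.sum_range (fun u => X.starSum Λ O (fun f => F (X.Upd P O v s u f)))]
  unfold starSum
  simp only [MA_inside X O Λ hO, MA_inside X (X.addE O (v, s)) Λ hO']
  -- every term is a sum over the results
  have key : ∀ (f : Λ → (S ≃ L)) (u : Fin P.cap),
      (if X.MA O Set.univ (X.glue Λ f) then F (X.Upd P O v s (u : ℕ) (X.glue Λ f)) else 0)
      = ∑ f' : Λ → (S ≃ L), if (X.MA O Set.univ (X.glue Λ f) ∧
          X.Upd P O v s (u : ℕ) (X.glue Λ f) = X.glue Λ f') then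
          (if X.MA (X.addE O (v, s)) Set.univ (X.glue Λ f') then F (X.glue Λ f') else 0)
          else 0 := by
    intro f u
    by_cases hM : X.MA O Set.univ (X.glue Λ f)
    · have hout : ∀ z, z ∉ Λ → X.Upd P O v s (u : ℕ) (X.glue Λ f) z = X.e0 := by
        intro z hz
        rw [hI H S L X P O (Λ : Set H) v s (u : ℕ) (X.glue Λ f) hO hv hn z hz,
          glue_out X Λ _ hz]
      have hg := glue_of_out X Λ _ hout
      have hMA := hU H S L X P O v s (u : ℕ) (X.glue Λ f) hS hvs hM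
      rw [if_pos hM, Finset.sum_eq_single
        (fun z : Λ => X.Upd P O v s (u : ℕ) (X.glue Λ f) z.1)]
      · rw [hg, if_pos ⟨hM, rfl⟩, if_pos hMA]
      · intro f' _ hne
        rw [if_neg]
        rintro ⟨_, h2⟩
        apply hne
        apply glue_inj X Λ
        rw [← h2, hg]
      · intro h
        exact absurd (Finset.mem_univ _) h
    · rw [if_neg hM]
      symm
      apply Finset.sum_eq_zero
      intro f' _
      rw [if_neg (fun h => hM h.1)]
  have h1 : ∀ u : Fin P.cap, (∑ f : Λ → (S ≃ L),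
      if X.MA O Set.univ (X.glue Λ f) then F (X.Upd P O v s (u : ℕ) (X.glue Λ f)) else 0)
      = ∑ f : Λ → (S ≃ L), ∑ f' : Λ → (S ≃ L), if (X.MA O Set.univ (X.glue Λ f) ∧
          X.Upd P O v s (u : ℕ) (X.glue Λ f) = X.glue Λ f') then
          (if X.MA (X.addE O (v, s)) Set.univ (X.glue Λ f') then F (X.glue Λ f') else 0)
          else 0 := fun u => Finset.sum_congr rfl fun f _ => key f u
  have h2 : (∑ u : Fin P.cap, ∑ f : Λ → (S ≃ L),
      if X.MA O Set.univ (X.glue Λ f) then F (X.Upd P O v s (u : ℕ) (X.glue Λ f)) else 0)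
      = ∑ f' : Λ → (S ≃ L), ∑ x : (Λ → (S ≃ L)) × Fin P.cap,
        if (X.MA O Set.univ (X.glue Λ x.1) ∧
          X.Upd P O v s (x.2 : ℕ) (X.glue Λ x.1) = X.glue Λ f') then
          (if X.MA (X.addE O (v, s)) Set.univ (X.glue Λ f') then F (X.glue Λ f') else 0)
          else 0 := by
    rw [Finset.sum_congr rfl fun u _ => h1 u]
    refine Eq.trans (Finset.sum_comm (s := (Finset.univ : Finset (Fin P.cap)))
      (t := (Finset.univ : Finset (Λ → (S ≃ L)))) (f := fun (u : Fin P.cap) (f : Λ → (S ≃ L)) =>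
      ∑ f' : Λ → (S ≃ L), if (X.MA O Set.univ (X.glue Λ f) ∧
          X.Upd P O v s (u : ℕ) (X.glue Λ f) = X.glue Λ f') then
          (if X.MA (X.addE O (v, s)) Set.univ (X.glue Λ f') then F (X.glue Λ f') else 0)
          else 0)) ?_
    rw [← Fintype.sum_prod_type' (f := fun (f : Λ → (S ≃ L)) (u : Fin P.cap) =>
      ∑ f' : Λ → (S ≃ L), if (X.MA O Set.univ (X.glue Λ f) ∧
          X.Upd P O v s (u : ℕ) (X.glue Λ f) = X.glue Λ f') then
          (if X.MA (X.addE O (v, s)) Set.univ (X.glue Λ f') then F (X.glue Λ f') else 0)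
          else 0)]
    exact Finset.sum_comm
  rw [h2, Finset.mul_sum]
  apply Finset.sum_congr rfl
  intro f' _
  rw [← Finset.sum_filter, Finset.sum_const]
  by_cases hM : X.MA (X.addE O (v, s)) Set.univ (X.glue Λ f')
  · rw [count_fin hC hI X P O Λ v s hS hO hvs hv hn f' hM, nsmul_eq_mul]
    push_cast
    rfl
  · rw [if_neg hM]
    simp

/-- The interface statement `Exact_stmt`. -/
theorem exact_stmt (hC : A_CNT) (hU : A_UPM) (hI : A_UPI) : Exact_stmt := by
  intro H S L _ _ _ X P _ Λ O hS hO v s hv hn hvs F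
  exact exa hC hU hI H S L X P O Λ v s F hS hO hvs hv hn

end Pool.Agent.Helper99.OE
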