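import Pool.Agent.Helper75.OE.GoalsB2

/-!
# Packet OE-UFIN (MP_fc0446_an): the explored set of a history is finite
-/

namespace Pool.Agent.Helper99.OE

open Pool.Agent.Helper73.OE Pool.Agent.Helper73.OE.Sys Pool.Agent.Helper75.OE Finset
open scoped ENNReal

theorem addE_in {H S L : Type} [Group H] (X : Sys H S L) (O : Edges H S) (Λ : Set H)
    (hO : ∀ z r, O z r → z ∈ Λ ∧ X.nb z r ∈ Λ) (e : H × S) (he : e.1 ∈ Λ ∧ X.nb e.1 e.2 ∈ Λ) :
    ∀ z r, X.addE O e z r → z ∈ Λ ∧ X.nb z r ∈ Λ := by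
  intro z r h
  rcases h with h | h | h
  · exact hO z r h
  · have h1 : z = e.1 := congrArg Prod.fst h
    have h2 : r = e.2 := congrArg Prod.snd h
    rw [h1, h2]
    exact he
  · have h1 : z = X.nb e.1 e.2 := congrArg Prod.fst h
    have h2 : r = X.bar e.2 := congrArg Prod.snd h
    rw [h1, h2, X.nb_bar]
    exact ⟨he.2, he.1⟩

/-- Packet UFIN. -/
theorem ufin (h1 : B_EXC) : B_UFIN := by
  intro H S L _ _ _ X P u l
  induction l with
  | nil =>
    intro O f Λ _ _ _
    have : UU X P u [] O f = ∅ := by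
      ext z
      simp [UU, Rec]
    rw [this]
    exact Set.finite_empty
  | cons e l ih =>
    intro O f Λ hΛ hO hl
    have he := hl e List.mem_cons_self
    have hsub : UU X P u (e :: l) O f ⊆
        Ex X P O f e ∪ UU X P u l (X.addE O e) (X.Upd P O e.1 e.2 (u e) f) := by
      rintro z ⟨e', O', f', hr, hz⟩
      rcases hr with ⟨h2, h3, h4⟩ | hr
      · left
        rw [← h2, ← h3, ← h4]
        exact hz
      · right
        exact ⟨e', O', f', hr, hz⟩
    refine Set.Finite.subset (Set.Finite.union ?_ ?_) hsub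
    · exact (h1 H S L X P O f e).2 Λ hΛ hO
    · exact ih _ _ Λ hΛ (addE_in X O Λ hO e he) (fun e' he' => hl e' (List.mem_cons_of_mem _ he'))

end Pool.Agent.Helper99.OE
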